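import Pool.Agent.H15.FLX.Targets
import Pool.Agent.H1.MSC.HIT

/-!
# Board flx_modules (MP_c62aed_lc), row HTX
-/

set_option autoImplicit false

namespace Pool.Agent.H27.FLX

open Finset Pool.Agent.H15.FLX
open Pool.Agent.H53.MC (U Ins H1 InR)

theorem pf_HTX (hRS : T_RS) : T_HTX := by
  classical
  intro n k M μ g w s₀ hg hH p hp
  have h1 : Nat.card {c : U M k // Ins g p c} ≤ s₀ :=
    (Pool.Agent.H1.MSC.pf_HIT g w s₀ hH p hp).1
  set I : Finset (U M k) := univ.filter fun c => Ins g p c with hI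
  have hIc : I.card ≤ s₀ := by
    rw [Nat.card_eq_fintype_card, Fintype.card_subtype] at h1
    exact h1
  have h2 : (univ.filter fun σ : Signs n M μ => ∃ j, Ins g p (FG g σ j)) ⊆
      I.biUnion fun c => univ.filter fun σ : Signs n M μ => InR (FG g σ) {c} := by
    intro σ hσ
    rw [Finset.mem_filter] at hσ
    obtain ⟨-, j, hj⟩ := hσ
    rw [Finset.mem_biUnion]
    refine ⟨FG g σ j, ?_, ?_⟩
    · rw [hI, Finset.mem_filter]
      exact ⟨Finset.mem_univ _, hj⟩
    · rw [Finset.mem_filter]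
      refine ⟨Finset.mem_univ _, fun c hc => ?_⟩
      rw [Finset.mem_singleton] at hc
      exact ⟨j, hc.symm⟩
  have h3 : ∀ c : U M k, (univ.filter fun σ : Signs n M μ => InR (FG g σ) {c}).card * 2 ^ k ≤
      μ * Nat.card (Signs n M μ) := by
    intro c
    have h := hRS (μ := μ) g hg {c}
    rw [Finset.card_singleton, pow_one, pow_one] at h
    rw [Nat.card_eq_fintype_card, Fintype.card_subtype] at h
    exact h
  rw [Nat.card_eq_fintype_card, Fintype.card_subtype]
  calc (univ.filter fun σ : Signs n M μ => ∃ j, Ins g p (FG g σ j)).card * 2 ^ k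
      ≤ (I.biUnion fun c => univ.filter fun σ : Signs n M μ => InR (FG g σ) {c}).card * 2 ^ k :=
        Nat.mul_le_mul_right _ (Finset.card_le_card h2)
    _ ≤ (∑ c ∈ I, (univ.filter fun σ : Signs n M μ => InR (FG g σ) {c}).card) * 2 ^ k :=
        Nat.mul_le_mul_right _ Finset.card_biUnion_le
    _ = ∑ c ∈ I, (univ.filter fun σ : Signs n M μ => InR (FG g σ) {c}).card * 2 ^ k := by
        rw [Finset.sum_mul]
    _ ≤ ∑ _c ∈ I, μ * Nat.card (Signs n M μ) := Finset.sum_le_sum fun c _ => h3 c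
    _ = I.card * (μ * Nat.card (Signs n M μ)) := by
        rw [Finset.sum_const, smul_eq_mul]
    _ ≤ s₀ * (μ * Nat.card (Signs n M μ)) := Nat.mul_le_mul_right _ hIc
    _ = s₀ * μ * Nat.card (Signs n M μ) := by rw [mul_assoc]

end Pool.Agent.H27.FLX
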